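import Pool.Agent.helper84.ZD.SpecA

set_option autoImplicit false

open Complex MeasureTheory

namespace Pool.Agent.ZD

open Pool.Agent.helper84.DM Pool.Agent.helper78.ED Pool.Agent.DH

theorem RFS_kap_cont : Continuous kap := by
  unfold kap
  apply Continuous.div continuous_const (by fun_prop)
  intro x
  positivity

theorem RFS_kap_neg (x : ℝ) : kap (-x) = kap x := by
  unfold kap
  ring

theorem RFS_kap_nonneg (x : ℝ) : 0 ≤ kap x := by
  unfold kap
  positivity

theorem RFS_rho_cont (W : Finset ℝ) : Continuous (rho W) := by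
  unfold rho
  fun_prop

/-- the integral for one pair -/
noncomputable def RFS_g (W : Finset ℝ) (X : ℝ) (m m' : ℤ) : ℝ :=
  ∫ a in (-5 : ℝ)..5, ‖rho W a‖ ^ 2 * kap (X * ((m : ℝ) * Real.exp a - m'))

theorem RFS_cont (W : Finset ℝ) (X : ℝ) (m m' : ℝ) :
    Continuous (fun a : ℝ => ‖rho W a‖ ^ 2 * kap (X * (m * Real.exp a - m'))) := by
  have h1 := RFS_rho_cont W
  have h2 := RFS_kap_cont
  have h3 : Continuous (fun a : ℝ => kap (X * (m * Real.exp a - m'))) :=
    h2.comp (by fun_prop)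
  exact (h1.norm.pow 2).mul h3

theorem RFS_g_neg (W : Finset ℝ) (X : ℝ) (m m' : ℤ) : RFS_g W X (-m) (-m') = RFS_g W X m m' := by
  unfold RFS_g
  apply intervalIntegral.integral_congr
  intro a _
  simp only
  rw [show X * (((-m : ℤ) : ℝ) * Real.exp a - ((-m' : ℤ) : ℝ)) =
    -(X * ((m : ℝ) * Real.exp a - m')) by push_cast; ring, RFS_kap_neg]

/-- sums over nonzero integers -/
theorem RFS_sum (M : ℕ) (F : ℤ → ℝ) :
    ∑ m ∈ MM M, F m = ∑ m ∈ Finset.Icc 1 M, (F (m : ℤ) + F (-(m : ℤ))) := by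
  unfold MM
  induction M with
  | zero => simp
  | succ n ih =>
    rw [Finset.sum_Icc_succ_top (by omega), ← ih]
    have hset : (Finset.Icc (-((n + 1 : ℕ) : ℤ)) ((n + 1 : ℕ) : ℤ)).erase 0 =
        insert ((n + 1 : ℕ) : ℤ) (insert (-((n + 1 : ℕ) : ℤ))
          ((Finset.Icc (-(n : ℤ)) (n : ℤ)).erase 0)) := by
      ext x
      simp only [Finset.mem_erase, Finset.mem_Icc, Finset.mem_insert]
      push_cast
      omega
    rw [hset, Finset.sum_insert, Finset.sum_insert]
    · ring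
    · simp only [Finset.mem_erase, Finset.mem_Icc]
      push_cast
      omega
    · simp only [Finset.mem_erase, Finset.mem_Icc, Finset.mem_insert]
      push_cast
      omega

theorem RFS_sum2 (W : Finset ℝ) (X : ℝ) (M : ℕ) :
    ∑ m ∈ MM M, ∑ m' ∈ MM M, RFS_g W X m m' =
      2 * ∑ m ∈ Finset.Icc 1 M, ∑ m' ∈ Finset.Icc 1 M,
        ∫ a in (-5 : ℝ)..5, ‖rho W a‖ ^ 2 *
        (kap (X * ((m : ℝ) * Real.exp a - m')) + kap (X * ((m : ℝ) * Real.exp a + m'))) := by
  rw [RFS_sum]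
  simp_rw [RFS_sum]
  rw [Finset.mul_sum]
  apply Finset.sum_congr rfl
  intro m _
  rw [← Finset.sum_add_distrib, Finset.mul_sum]
  apply Finset.sum_congr rfl
  intro m' _
  have e1 : RFS_g W X (-(m : ℤ)) (-(m' : ℤ)) = RFS_g W X m m' := RFS_g_neg W X _ _
  have e2 : RFS_g W X (-(m : ℤ)) (m' : ℤ) = RFS_g W X m (-(m' : ℤ)) := by
    rw [← RFS_g_neg W X (m : ℤ) (-(m' : ℤ)), neg_neg]
  rw [e1, e2]
  have e3 : (∫ a in (-5 : ℝ)..5, ‖rho W a‖ ^ 2 *
        (kap (X * ((m : ℝ) * Real.exp a - m')) + kap (X * ((m : ℝ) * Real.exp a + m')))) =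
      RFS_g W X m m' + RFS_g W X m (-(m' : ℤ)) := by
    unfold RFS_g
    rw [← intervalIntegral.integral_add]
    · apply intervalIntegral.integral_congr
      intro a _
      simp only
      push_cast
      rw [mul_add, sub_neg_eq_add]
    · exact (RFS_cont W X _ _).intervalIntegrable _ _
    · exact (RFS_cont W X _ _).intervalIntegrable _ _
  rw [e3]
  ring

theorem RFS (h1 : QDI_stmt) (h2 : GEC_stmt) (h3 : K2B_stmt) (h4 : PRS_stmt) (h5 : QZ0_stmt)
    (h6 : QWF_stmt) : RFS_stmt := by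
  obtain ⟨C3, hC3, h3⟩ := h3
  obtain ⟨C4, hC4, h4⟩ := h4
  obtain ⟨C5, hC5, h5⟩ := h5
  refine ⟨2 * C3 * C4 * (1 + C5), by positivity, ?_⟩
  intro W X D M L hW hX hL hM hML hD hd
  obtain ⟨hGc, hG0, hGB⟩ := h2 X M
  set K : ℝ → ℂ := fun a => ∫ y : ℝ, GE X M (y + a) * (starRingEnd ℂ) (GE X M y) with hK
  set S : ℝ → ℝ := fun a => ∑ m ∈ MM M, ∑ m' ∈ MM M, kap (X * ((m : ℝ) * Real.exp a - m')) with hS
  -- step 1
  have hq := h1 (GE X M) hGc hG0 W
  have hsum : (∑ t ∈ W, ∑ t' ∈ W, ‖Bs X M (t - t')‖ ^ 2) =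
      ∑ t ∈ W, ∑ t' ∈ W,
      ‖∫ x : ℝ, GE X M x * Complex.exp (-((((t - t') * x : ℝ) : ℂ) * I))‖ ^ 2 := by
    apply Finset.sum_congr rfl
    intro t _
    apply Finset.sum_congr rfl
    intro t' _
    rw [hGB]
  have hScont : Continuous (fun a : ℝ => ‖rho W a‖ ^ 2 * (C3 * X ^ 2 * S a)) := by
    have hk := RFS_kap_cont
    have hr := RFS_rho_cont W
    have : Continuous S := by
      rw [hS]
      apply continuous_finsetSum
      intro m _
      apply continuous_finsetSum
      intro m' _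
      exact hk.comp (by fun_prop)
    exact (hr.norm.pow 2).mul (continuous_const.mul this)
  have hbound : (∑ t ∈ W, ∑ t' ∈ W, ‖Bs X M (t - t')‖ ^ 2) ≤
      ∫ a in (-5 : ℝ)..5, ‖rho W a‖ ^ 2 * (C3 * X ^ 2 * S a) := by
    have hnn : 0 ≤ ∑ t ∈ W, ∑ t' ∈ W, ‖Bs X M (t - t')‖ ^ 2 := by positivity
    have hn : (∑ t ∈ W, ∑ t' ∈ W, ‖Bs X M (t - t')‖ ^ 2) =
        ‖∫ a : ℝ, ((‖rho W a‖ ^ 2 : ℝ) : ℂ) * K a‖ := by
      rw [← hq, ← hsum, Complex.norm_real, Real.norm_of_nonneg hnn]
    rw [hn, intervalIntegral.integral_of_le (by norm_num),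
      ← MeasureTheory.integral_Icc_eq_integral_Ioc,
      ← MeasureTheory.integral_indicator measurableSet_Icc]
    apply MeasureTheory.norm_integral_le_of_norm_le
    · rw [MeasureTheory.integrable_indicator_iff measurableSet_Icc]
      exact hScont.continuousOn.integrableOn_compact isCompact_Icc
    · apply Filter.Eventually.of_forall
      intro a
      obtain ⟨hz, hb⟩ := h3 X M a
      by_cases ha : 5 < |a|
      · have hKa : K a = 0 := hz ha
        rw [hKa, mul_zero, norm_zero]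
        apply Set.indicator_nonneg
        intro b _
        have : 0 ≤ S b := by
          rw [hS]
          apply Finset.sum_nonneg
          intro m _
          apply Finset.sum_nonneg
          intro m' _
          exact RFS_kap_nonneg _
        positivity
      · have hmem : a ∈ Set.Icc (-5 : ℝ) 5 := by
          rw [not_lt, abs_le] at ha
          exact ha
        rw [Set.indicator_of_mem hmem, norm_mul, Complex.norm_real,
          Real.norm_of_nonneg (by positivity)]
        apply mul_le_mul_of_nonneg_left _ (by positivity)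
        exact hb
  -- step 2
  have hint : (∫ a in (-5 : ℝ)..5, ‖rho W a‖ ^ 2 * (C3 * X ^ 2 * S a)) =
      C3 * X ^ 2 * ∑ m ∈ MM M, ∑ m' ∈ MM M, RFS_g W X m m' := by
    unfold RFS_g
    have e1 : ∀ m : ℤ, (∑ m' ∈ MM M, ∫ a in (-5 : ℝ)..5,
        ‖rho W a‖ ^ 2 * kap (X * ((m : ℝ) * Real.exp a - m'))) =
        ∫ a in (-5 : ℝ)..5, ∑ m' ∈ MM M,
        ‖rho W a‖ ^ 2 * kap (X * ((m : ℝ) * Real.exp a - m')) := by
      intro m
      rw [intervalIntegral.integral_finsetSum]
      intro m' _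
      exact (RFS_cont W X _ _).intervalIntegrable _ _
    simp_rw [e1]
    rw [← intervalIntegral.integral_finsetSum]
    · rw [← intervalIntegral.integral_const_mul]
      apply intervalIntegral.integral_congr
      intro a _
      simp only [hS]
      simp_rw [← Finset.mul_sum]
      ring
    · intro m _
      apply Continuous.intervalIntegrable
      apply continuous_finsetSum
      intro m' _
      exact RFS_cont W X _ _
  rw [hint, RFS_sum2] at hbound
  have hp := h4 W X D M L hX hL hM hML hD hd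
  set P : ℝ := ∑ m ∈ Finset.Icc 1 M, ∑ m' ∈ Finset.Icc 1 M,
        ∫ a in (-5 : ℝ)..5, ‖rho W a‖ ^ 2 *
        (kap (X * ((m : ℝ) * Real.exp a - m')) + kap (X * ((m : ℝ) * Real.exp a + m'))) with hP
  have hz0 := h5 W hW
  obtain ⟨_, hq2⟩ := h6 W L
  set R : ℝ := ∫ a in (-5 : ℝ)..5, ‖rho W a‖ ^ 2 with hR
  have hLr : (1 : ℝ) ≤ L := by exact_mod_cast hL
  have hMr : (1 : ℝ) ≤ M := by exact_mod_cast hM
  have hlog : 0 ≤ Real.log M := Real.log_nonneg hMr
  have hcard : (W.card : ℝ) ≤ (W.card : ℝ) ^ 2 := by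
    rcases Nat.eq_zero_or_pos W.card with h | h
    · rw [h]; norm_num
    · have : (1 : ℝ) ≤ W.card := by exact_mod_cast h
      nlinarith
  have hLR : (L : ℝ) * R ≤ C5 * QW W L := by
    calc (L : ℝ) * R ≤ L * (C5 * (W.card : ℝ)) := by
          apply mul_le_mul_of_nonneg_left hz0 (by linarith)
      _ = C5 * (L * (W.card : ℝ)) := by ring
      _ ≤ C5 * (L * (W.card : ℝ) ^ 2) := by
          apply mul_le_mul_of_nonneg_left _ hC5.le
          apply mul_le_mul_of_nonneg_left hcard (by linarith)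
      _ ≤ C5 * QW W L := mul_le_mul_of_nonneg_left hq2 hC5.le
  have hQ : 0 ≤ QW W L := le_trans (by positivity) hq2
  have hXD : (1 : ℝ) ≤ X * D := by nlinarith
  have hLR2 : (L : ℝ) * R ≤ C5 * (X * D * QW W L) := by
    apply hLR.trans
    apply mul_le_mul_of_nonneg_left _ hC5.le
    nlinarith
  calc (L : ℝ) * ∑ t ∈ W, ∑ t' ∈ W, ‖Bs X M (t - t')‖ ^ 2
      ≤ L * (C3 * X ^ 2 * (2 * P)) := mul_le_mul_of_nonneg_left hbound (by linarith)
    _ = 2 * C3 * (L * X ^ 2 * P) := by ring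
    _ ≤ 2 * C3 * (C4 * (1 + Real.log M) * (X * D * QW W L + L * R)) := by
        apply mul_le_mul_of_nonneg_left hp (by positivity)
    _ ≤ 2 * C3 * (C4 * (1 + Real.log M) * (X * D * QW W L + C5 * (X * D * QW W L))) := by
        apply mul_le_mul_of_nonneg_left _ (by positivity)
        apply mul_le_mul_of_nonneg_left _ (by positivity)
        linarith
    _ = 2 * C3 * C4 * (1 + C5) * (1 + Real.log M) * X * D * QW W L := by ring

end Pool.Agent.ZD
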